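import Pool.Agent.Run7.h364.MK.Sqf

/-!
# The Moebius function in dilated windows: the Good-Churchhouse variance for all linear combinations

For almost all members `d` of every thin family with small exponential sums the Moebius values
`μ(n + d), μ(n + 2d), …, μ(n + md)`, `m ≤ log^A N`, are uncorrelated over `n ≤ N`: the mean square of every linear
combination with coefficients of modulus at most one is `6/π²` times the sum of the squares of the coefficients.
-/

set_option autoImplicit false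

namespace Pool.Agent.Results.MP_0575cc_nt.DilatedWindows

open Finset

/-- A finite family of integers `d i`, `i ∈ s`, is `η`-flat modulo `q` if every nontrivial exponential sum modulo `q`
over the family is at most `η` times the number of its members. -/
def FlatFamily {ι : Type} (q : ℕ) (η : ℝ) (s : Finset ι) (d : ι → ℕ) : Prop :=
  ∀ h : ℤ, ¬ ((q : ℤ) ∣ h) →
    ‖∑ i ∈ s, Complex.exp (2 * Real.pi * Complex.I * (h * (d i : ℂ)) / q)‖ ≤ η * s.card

/-- **The Good-Churchhouse variance in dilated windows.** -/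
theorem result (A U : ℕ) : ∃ V C N₀ : ℕ, ∀ N q : ℕ, N₀ ≤ N →
    (N : ℝ) ^ (1 / 3 : ℝ) * Real.log N ^ C ≤ q → (q : ℝ) * Real.log N ^ C ≤ N →
    ∀ (ι : Type) (s : Finset ι) (d : ι → ℕ), s.Nonempty → (∀ i ∈ s, d i < q) →
    FlatFamily q (1 / Real.log N ^ V) s d →
    ∃ E : Finset ι, E ⊆ s ∧ (E.card : ℝ) ≤ s.card / Real.log N ^ U ∧
      ∀ i ∈ s, i ∉ E → 1 ≤ d i ∧ ∀ m : ℕ, (m : ℝ) ≤ Real.log N ^ A →
        ∀ c : ℕ → ℂ, (∀ j ∈ Icc 1 m, ‖c j‖ ≤ 1) →
        |∑ n ∈ Icc 1 N, ‖∑ j ∈ Icc 1 m, c j * ((ArithmeticFunction.moebius (n + j * d i) : ℤ) : ℂ)‖ ^ 2 -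
          6 / Real.pi ^ 2 * N * ∑ j ∈ Icc 1 m, ‖c j‖ ^ 2| ≤ N / Real.log N ^ U := by
  classical
  obtain ⟨V, C, N₀, h⟩ := Pool.Agent.Run7.h364.MK.MV.flat_g Pool.Agent.Run7.h794.MK.mob_abs
    Pool.Agent.Run7.h794.MK.law_mob A (U + 1)
  obtain ⟨N₁, h4⟩ := Pool.Agent.H373R2.T7.ev_log' (A + (U + 1)) 3
  obtain ⟨N₂, h5⟩ := Pool.Agent.H373R2.T7.ev_L' 2
  refine ⟨V, C, N₀ + N₁ + N₂ + 3, fun N q hN h1 h2 ι s d hs hd hf => ?_⟩
  have hlog2 : 2 ≤ Real.log N := h5 N (by omega)
  have hlog : 1 ≤ Real.log N := by linarith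
  have hN0 : (0 : ℝ) < N := by exact_mod_cast (by omega : 0 < N)
  have hq0 : (0 : ℝ) < q := lt_of_lt_of_le (by positivity) h1
  have hq : q ≠ 0 := by
    rintro rfl
    simp at hq0
  have : NeZero q := ⟨hq⟩
  have hflat : Pool.Agent.N384.MQ.Flat q (1 / Real.log N ^ V) s (fun i => (d i : ZMod q)) := by
    intro x hx
    have h4 := hf (x.val : ℤ) (by
      intro hdvd
      apply hx
      have h5 : ((x.val : ℤ) : ZMod q) = 0 := (ZMod.intCast_zmod_eq_zero_iff_dvd _ _).2 hdvd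
      rw [← h5]
      simp)
    refine le_trans (le_of_eq ?_) h4
    congr 1
    refine sum_congr rfl fun i _ => ?_
    have h6 : x * (d i : ZMod q) = (((x.val : ℤ) * (d i : ℤ) : ℤ) : ZMod q) := by
      push_cast
      simp
    rw [h6, ZMod.stdAddChar_coe]
    push_cast
    rfl
  have key := h N (by omega) q ι s (fun i => (d i : ZMod q)) hs h1 h2 hflat
  refine ⟨s.filter (fun i => ¬ Pool.Agent.Run7.h364.MK.MV.GoodG Pool.Agent.Run7.h794.MK.mob A (U + 1) N
    ((d i : ZMod q)).val), filter_subset _ _, ?_, fun i hi hE => ?_⟩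
  · refine le_trans ?_ (le_trans key ?_)
    · apply le_of_eq
      congr 2
    · apply div_le_div_of_nonneg_left (Nat.cast_nonneg _) (by positivity)
      exact pow_le_pow_right₀ hlog (by omega)
  · rw [mem_filter, not_and, not_not] at hE
    have h7 := hE hi
    rw [ZMod.val_cast_of_lt (hd i hi)] at h7
    refine ⟨h7.1, fun m hm c hc => ?_⟩
    have h8 := h7.2 m hm c hc
    have h9 := Pool.Agent.Run7.h364.MK.MV.CG_mob_err N (by omega)
    have h10 : ∑ j ∈ Icc 1 m, ‖c j‖ ^ 2 ≤ Real.log N ^ A := by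
      refine le_trans ?_ hm
      calc ∑ j ∈ Icc 1 m, ‖c j‖ ^ 2 ≤ ∑ j ∈ Icc 1 m, (1 : ℝ) :=
            sum_le_sum fun j hj => pow_le_one₀ (norm_nonneg _) (hc j hj)
        _ = m := by rw [sum_const, Nat.card_Icc, Nat.add_sub_cancel, nsmul_eq_mul, mul_one]
    have h11 : 0 ≤ ∑ j ∈ Icc 1 m, ‖c j‖ ^ 2 := sum_nonneg fun _ _ => by positivity
    have h12 := h4 N (by omega)
    have e1 : ∑ n ∈ Icc 1 N, ‖∑ j ∈ Icc 1 m, c j * (Pool.Agent.Run7.h794.MK.mob (n + j * d i) : ℂ)‖ ^ 2 =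
        ∑ n ∈ Icc 1 N, ‖∑ j ∈ Icc 1 m, c j * ((ArithmeticFunction.moebius (n + j * d i) : ℤ) : ℂ)‖ ^ 2 := by
      refine sum_congr rfl fun n _ => ?_
      congr 2
    rw [e1] at h8
    have h13 : |Pool.Agent.Run7.h364.MK.MV.CG Pool.Agent.Run7.h794.MK.mob N 0 * ∑ j ∈ Icc 1 m, ‖c j‖ ^ 2 -
        6 / Real.pi ^ 2 * N * ∑ j ∈ Icc 1 m, ‖c j‖ ^ 2| ≤ N / Real.log N ^ (U + 1) := by
      rw [← sub_mul, abs_mul, abs_of_nonneg h11]
      have hss := Real.mul_self_sqrt hN0.le
      have hs0 := Real.sqrt_nonneg (N : ℝ)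
      calc _ ≤ 3 * √(N : ℝ) * Real.log N ^ A := mul_le_mul h9 h10 h11 (by positivity)
        _ ≤ N / Real.log N ^ (U + 1) := by
          rw [le_div_iff₀ (by positivity)]
          calc 3 * √(N : ℝ) * Real.log N ^ A * Real.log N ^ (U + 1) =
                √(N : ℝ) * (3 * Real.log N ^ (A + (U + 1))) := by rw [pow_add]; ring
            _ ≤ √(N : ℝ) * √(N : ℝ) := mul_le_mul_of_nonneg_left h12 hs0
            _ = N := hss
    have h14 : 2 * (N / Real.log N ^ (U + 1)) ≤ N / Real.log N ^ U := by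
      rw [pow_succ]
      calc 2 * (N / (Real.log N ^ U * Real.log N)) = (2 / Real.log N) * (N / Real.log N ^ U) := by field_simp
        _ ≤ 1 * (N / Real.log N ^ U) := by
          apply mul_le_mul_of_nonneg_right _ (by positivity)
          rw [div_le_one (by positivity)]
          exact hlog2
        _ = _ := one_mul _
    have h15 := abs_le.1 h8
    have h16 := abs_le.1 h13
    rw [abs_le]
    constructor <;> linarith

end Pool.Agent.Results.MP_0575cc_nt.DilatedWindows
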