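import Mathlib
import Pool.Agent.Run7.h794.MK.Orth

set_option autoImplicit false

/-!
The Good-Churchhouse variance for sparse windows: for almost every choice of `m <= log^A N` members `y_1, .., y_m` of ANY flat
family inside an interval of length `q`, `N^(1/3) log^C N <= q <= Bq N`, the mean square of `a_1 mu(n + k y_1) + .. + a_m mu(n + k y_m)`
over every interval `(u, v]` of length at least `N / log^T N` in `[0, N]` is `(6 / pi^2 + O(log^(-A) N)) (a_1^2 + .. + a_m^2)`, for all real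
`a_1, .., a_m` and all dilations `k <= log^T N` at once.
-/

namespace Pool.Agent.Results.MP_0575cc_nt.SparseWindowVariance

open Finset
open Pool.Agent.N384.MQ (Flat)

theorem result (A T Bq : ℕ) : ∃ V C N₀ : ℕ, ∀ N : ℕ, N₀ ≤ N → ∀ (q : ℕ) [NeZero q],
    (N : ℝ) ^ (1 / 3 : ℝ) * Real.log N ^ C ≤ q → q ≤ Bq * N →
    ∀ {ι : Type} [DecidableEq ι] (s : Finset ι) (y : ι → ZMod q), s.Nonempty → Flat q (1 / Real.log N ^ V) s y →
    ∀ m : ℕ, (m : ℝ) ≤ Real.log N ^ A →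
    ∃ Bad ⊆ Fintype.piFinset (fun _ : Fin m => s), (Bad.card : ℝ) ≤ (s.card : ℝ) ^ m / Real.log N ^ A ∧
      ∀ i ∈ Fintype.piFinset (fun _ : Fin m => s), i ∉ Bad → ∀ k : ℕ, 1 ≤ k → (k : ℝ) ≤ Real.log N ^ T →
      ∀ u v : ℕ, v ≤ N → (u : ℝ) + N / Real.log N ^ T ≤ v → ∀ a : Fin m → ℝ,
      |∑ n ∈ Ioc u v, (∑ l, a l * ((ArithmeticFunction.moebius (n + k * (y (i l)).val) : ℤ) : ℝ)) ^ 2 -
          6 / Real.pi ^ 2 * ((v : ℝ) - u) * ∑ l, a l ^ 2| ≤
        ((v : ℝ) - u) / Real.log N ^ A * ∑ l, a l ^ 2 :=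
  Pool.Agent.Run7.h794.MK.orth A T Bq

end Pool.Agent.Results.MP_0575cc_nt.SparseWindowVariance
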