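import Pool.Agent.Run7.h673.SP.Mob

/-!
# The Moebius function in the windows `n + d, n + 2 d, …, n + m d`, `d = ⌊exp (φ (log k))⌋`

For almost all `k` in a range of a function `f t = exp (φ (log t))` which grows faster than all polynomials, for instance
`φ y = γ y ^ β` with `1 < β < 3 / 2`, the Moebius values `μ(n + d), …, μ(n + m d)`, `d = ⌊f k⌋`, `m ≤ log ^ A N`, are
uncorrelated over `n ≤ N`: the mean square of every linear combination with coefficients of modulus at most one is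
`6 / π²` times the sum of the squares of the coefficients. The values `f k` may be as small as `N ^ (1/3) log ^ C N`.

From Mathlib: `ContDiffAt ℝ ⊤`: infinitely differentiable at a point; `iteratedDeriv m f`: the derivative of order `m`;
`⌊y⌋₊`: the integer part of `y ≥ 0`; `ArithmeticFunction.moebius`: the Moebius function.

Method: the exponential sums over the integer parts of `exp (φ (log k))`, `y < k ≤ x`, are small at all frequencies with a
distance of at least `log ^ A / exp (φ (log y))` from the integers (Vinogradov's method of bilinear exponential sums with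
the mean value theorem in the form of a starting file; files `Pool.Agent.Run7.h673.SP`). By project MKM of this run
(helper794, helper788, helper880 and others: the Moebius function twisted by additive characters in almost all intervals of
length `N ^ (1/3) log ^ C N`) such exponential sums suffice for the correlations. The passage from the correlations to the
mean squares and the number of the squarefree integers are from files of helper364.
-/

set_option autoImplicit false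

namespace Pool.Agent.Results.MP_0575cc_nt.SuperpolynomialDilatedWindows

open Finset

/-- The conditions on `φ` for the growth of `f t = exp (φ (log t))`: for some `δ > 0`, `K` and `L₀` and all `y > L₀` the
function `φ` is infinitely differentiable at `y`, `φ y > 0`, `(1 + δ) φ y ≤ y φ' y`, `φ y ≤ y ^ (3 / 2 - δ)`, and
`|φ⁽ᵐ⁾ y| ≤ m! φ y (K / y) ^ m` for all `m ≥ 1`. -/
def Rapid (φ : ℝ → ℝ) : Prop :=
  ∃ δ K L₀ : ℝ, 0 < δ ∧ ∀ y > L₀, ContDiffAt ℝ ((⊤ : ℕ∞) : WithTop ℕ∞) φ y ∧ 0 < φ y ∧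
    (1 + δ) * φ y ≤ y * deriv φ y ∧ φ y ≤ y ^ (3 / 2 - δ) ∧
    ∀ m : ℕ, 1 ≤ m → |iteratedDeriv m φ y| ≤ m.factorial * φ y * (K / y) ^ m

/-- `(y, x]` is a range of length at least `x / log ^ a N` in which `f t = exp (φ (log t))` has values between
`N ^ (1/3) log ^ C N` and `N / log ^ C N`: `y < x`, `x ≤ log ^ a N (x - y)`, `N ^ (1/3) log ^ C N ≤ f y` and
`f x log ^ C N ≤ N`. -/
def Range (φ : ℝ → ℝ) (a C N x y : ℕ) : Prop :=
  y < x ∧ (x : ℝ) ≤ Real.log N ^ a * ((x : ℝ) - y) ∧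
    (N : ℝ) ^ (1 / 3 : ℝ) * Real.log N ^ C ≤ Real.exp (φ (Real.log y)) ∧ Real.exp (φ (Real.log x)) * Real.log N ^ C ≤ N

/-- The sum of `|c 1 μ(n + d) + c 2 μ(n + 2 d) + … + c m μ(n + m d)|²` over `1 ≤ n ≤ N`. -/
noncomputable def secondMoment (N d m : ℕ) (c : ℕ → ℂ) : ℝ :=
  ∑ n ∈ Icc 1 N, ‖∑ j ∈ Icc 1 m, c j * ((ArithmeticFunction.moebius (n + j * d) : ℤ) : ℂ)‖ ^ 2

/-- **(1)** Let `φ` satisfy the conditions `Rapid` and let `a`, `A`, `U` be fixed. There is `C` such that for all large `N`,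
all ranges `(y, x]` (`Range`: the values `exp (φ (log k))` are between `N ^ (1/3) log ^ C N` and `N / log ^ C N`, and
`x - y ≥ x / log ^ a N`) and all `k` in `(y, x]`, with at most `(x - y) / log ^ U N` exceptions: with
`d = ⌊exp (φ (log k))⌋`, for ALL `m ≤ log ^ A N` and ALL complex numbers `c 1, …, c m` of modulus at most one the sum of
`|c 1 μ(n + d) + c 2 μ(n + 2 d) + … + c m μ(n + m d)|²` over `n ≤ N` is `6 / π² N (|c 1|² + … + |c m|²)` with an error of at
most `N / log ^ U N`.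

**(2)** Let `φ` satisfy the conditions `Rapid`, `η > 0`, `C`. For all large `N` and all `X` with
`N ^ (1/3 + η) ≤ exp (φ (log X))` and `exp (φ (log X)) log ^ C N ≤ N` the interval `(⌊X / 2⌋, X]` is a range (`a = 1`).

**(3)** The functions `φ y = γ y ^ β` with `γ > 0` and `1 < β < 3 / 2` satisfy the conditions `Rapid`. -/
theorem result :
    (∀ φ : ℝ → ℝ, Rapid φ → ∀ a A U : ℕ, ∃ C N₀ : ℕ, ∀ N : ℕ, N₀ ≤ N → ∀ x y : ℕ, Range φ a C N x y →
      ∃ E : Finset ℕ, (E.card : ℝ) ≤ ((x : ℝ) - y) / Real.log N ^ U ∧ ∀ k : ℕ, y < k → k ≤ x → k ∉ E →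
        ∀ m : ℕ, (m : ℝ) ≤ Real.log N ^ A → ∀ c : ℕ → ℂ, (∀ j ∈ Icc 1 m, ‖c j‖ ≤ 1) →
          |secondMoment N ⌊Real.exp (φ (Real.log k))⌋₊ m c - 6 / Real.pi ^ 2 * N * ∑ j ∈ Icc 1 m, ‖c j‖ ^ 2| ≤
            N / Real.log N ^ U) ∧
    (∀ φ : ℝ → ℝ, Rapid φ → ∀ η : ℝ, 0 < η → ∀ C : ℕ, ∃ N₀ : ℕ, ∀ N : ℕ, N₀ ≤ N → ∀ X : ℕ,
      (N : ℝ) ^ (1 / 3 + η) ≤ Real.exp (φ (Real.log X)) → Real.exp (φ (Real.log X)) * Real.log N ^ C ≤ N →
      Range φ 1 C N X (X / 2)) ∧
    (∀ γ β : ℝ, 0 < γ → 1 < β → β < 3 / 2 → Rapid (fun y => γ * y ^ β)) := by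
  classical
  refine ⟨fun φ hφ a A U => ?_, fun φ hφ η hη C => ?_,
    fun γ β h1 h2 h3 => Pool.Agent.Run7.h673.SP.rapid_pow γ β h1 h2 h3⟩
  · have hφ' : Pool.Agent.Run7.h673.SP.Rapid φ := hφ
    obtain ⟨δ, C', L₀, hf⟩ := hφ'.fast
    obtain ⟨C, N₀, h⟩ := hf.mobv Pool.Agent.Run7.h794.MK.mob_abs Pool.Agent.Run7.h794.MK.law_mob a A (U + 1)
    obtain ⟨N₁, h4⟩ := Pool.Agent.H373R2.T7.ev_log' (A + (U + 1)) 3
    obtain ⟨N₂, h5⟩ := Pool.Agent.H373R2.T7.ev_L' 2
    refine ⟨C, N₀ + N₁ + N₂ + 3, fun N hN x y hr => ?_⟩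
    have hlog2 : 2 ≤ Real.log N := h5 N (by omega)
    have hlog : 1 ≤ Real.log N := by linarith
    have hN0 : (0 : ℝ) < N := by exact_mod_cast (by omega : 0 < N)
    obtain ⟨r1, r2, r3, r4⟩ := hr
    have hr' : Pool.Agent.Run7.h673.SP.Rgt φ a C N x y := by
      refine ⟨r1, ?_, r3, r4⟩
      rw [Nat.cast_sub r1.le]
      exact r2
    have key := h N (by omega) x y hr'
    refine ⟨(Ioc y x).filter (fun k => ¬ Pool.Agent.Run7.h364.MK.MV.GoodG Pool.Agent.Run7.h794.MK.mob A (U + 1) N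
      (Pool.Agent.Run7.h673.SP.val φ k)), ?_, fun k hk1 hk2 hE => ?_⟩
    · rw [← Nat.cast_sub r1.le]
      refine le_trans ?_ (le_trans key ?_)
      · apply le_of_eq
        congr 2
      · apply div_le_div_of_nonneg_left (Nat.cast_nonneg _) (by positivity)
        exact pow_le_pow_right₀ hlog (by omega)
    · rw [mem_filter, not_and, not_not] at hE
      have h7 := hE (mem_Ioc.2 ⟨hk1, hk2⟩)
      intro m hm c hc
      have h8 := h7.2 m hm c hc
      have h9 := Pool.Agent.Run7.h364.MK.MV.CG_mob_err N (by omega)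
      have h10 : ∑ j ∈ Icc 1 m, ‖c j‖ ^ 2 ≤ Real.log N ^ A := by
        refine le_trans ?_ hm
        calc ∑ j ∈ Icc 1 m, ‖c j‖ ^ 2 ≤ ∑ j ∈ Icc 1 m, (1 : ℝ) :=
              sum_le_sum fun j hj => pow_le_one₀ (norm_nonneg _) (hc j hj)
          _ = m := by rw [sum_const, Nat.card_Icc, Nat.add_sub_cancel, nsmul_eq_mul, mul_one]
      have h11 : 0 ≤ ∑ j ∈ Icc 1 m, ‖c j‖ ^ 2 := sum_nonneg fun _ _ => by positivity
      have h12 := h4 N (by omega)
      have e1 : ∑ n ∈ Icc 1 N, ‖∑ j ∈ Icc 1 m, c j *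
            (Pool.Agent.Run7.h794.MK.mob (n + j * Pool.Agent.Run7.h673.SP.val φ k) : ℂ)‖ ^ 2 =
          secondMoment N ⌊Real.exp (φ (Real.log k))⌋₊ m c := by
        unfold secondMoment
        refine sum_congr rfl fun n _ => ?_
        congr 2
      rw [e1] at h8
      have h13 : |Pool.Agent.Run7.h364.MK.MV.CG Pool.Agent.Run7.h794.MK.mob N 0 * ∑ j ∈ Icc 1 m, ‖c j‖ ^ 2 -
          6 / Real.pi ^ 2 * N * ∑ j ∈ Icc 1 m, ‖c j‖ ^ 2| ≤ N / Real.log N ^ (U + 1) := by
        rw [← sub_mul, abs_mul, abs_of_nonneg h11]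
        have hss := Real.mul_self_sqrt hN0.le
        have hs0 := Real.sqrt_nonneg (N : ℝ)
        calc _ ≤ 3 * √(N : ℝ) * Real.log N ^ A := mul_le_mul h9 h10 h11 (by positivity)
          _ ≤ N / Real.log N ^ (U + 1) := by
            rw [le_div_iff₀ (by positivity)]
            calc 3 * √(N : ℝ) * Real.log N ^ A * Real.log N ^ (U + 1) =
                  √(N : ℝ) * (3 * Real.log N ^ (A + (U + 1))) := by rw [pow_add]; ring
              _ ≤ √(N : ℝ) * √(N : ℝ) := mul_le_mul_of_nonneg_left h12 hs0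
              _ = N := hss
      have h14 : 2 * (N / Real.log N ^ (U + 1)) ≤ N / Real.log N ^ U := by
        rw [pow_succ]
        calc 2 * (N / (Real.log N ^ U * Real.log N)) = (2 / Real.log N) * (N / Real.log N ^ U) := by field_simp
          _ ≤ 1 * (N / Real.log N ^ U) := by
            apply mul_le_mul_of_nonneg_right _ (by positivity)
            rw [div_le_one (by positivity)]
            exact hlog2
          _ = _ := one_mul _
      have h15 := abs_le.1 h8
      have h16 := abs_le.1 h13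
      rw [abs_le]
      constructor <;> linarith
  · have hφ' : Pool.Agent.Run7.h673.SP.Rapid φ := hφ
    obtain ⟨δ, C', L₀, hf⟩ := hφ'.fast
    obtain ⟨N₀, h0⟩ := hf.half η hη C 1
    obtain ⟨N₃, h3⟩ := Filter.eventually_atTop.1 (Pool.Agent.N384.MQ.ev_log_ge 1)
    refine ⟨N₀ + N₃, fun N hN X h1 h2 => ?_⟩
    have hL := h3 N (by omega)
    obtain ⟨e1, e2, e3, e4⟩ := h0 N (by omega) X h1 (by
      rw [Nat.cast_one, one_mul]
      refine le_trans ?_ h2
      exact le_mul_of_one_le_right (Real.exp_pos _).le (one_le_pow₀ hL))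
    refine ⟨e1, ?_, e3, h2⟩
    rw [Nat.cast_sub e1.le] at e2
    exact e2

end Pool.Agent.Results.MP_0575cc_nt.SuperpolynomialDilatedWindows
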