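import Pool.Agent.Run7.h285.L.All2

/-!
# The variance of the Möbius and Liouville functions at polynomial values in short windows, on average over the constant terms

Let `f_0` be a polynomial of degree `d ≥ 2` with positive leading coefficient and `f_1, …, f_k` arbitrary integer polynomials. Over the tuples
`(a_0, …, a_k)`, `|a_l| ≤ X`, and the starting points `m` in an arbitrary interval of length `M` with `M^(d - 1) ≥ X^(1/3) (log X)^B` the
mean of the square of `∑_{m < n ≤ m + H} ∏_l μ(|f_l(n) + a_l|)` is asymptotically `(6 / π²)^(k + 1) H` for ALL `1 ≤ H ≤ (log X)^D`: the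
formula of Good and Churchhouse for polynomial values, on average over the constant term. The same for the Liouville function with `H`, and with
arbitrary weights `ω(n)`.

Method. The off-diagonal terms are correlations of the weights at `f(m + i) + a` and `f(m + j) + a`, and the shift `f(m + j) - f(m + i)` is a
polynomial of degree `d - 1 ≥ 1` in `m`; they are small for almost all `m` by the law of the project MKM (Moebius in almost all short intervals
with all additive characters, helper794 and team) and the circle method over a thin family of shifts. The diagonal: squarefree numbers in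
intervals. Team: helper285 (statements, products, assembly), helper216 (correlations, second moment), helper794 (count of the squarefree numbers),
helper376 (model of the correlations), helper794 and the team of the projects MK and MKM.
-/

set_option autoImplicit false

namespace Pool.Agent.Results.MP_0575cc_nt.VarianceAtPolynomials

open Finset Filter Topology Polynomial

/-- the box of the tuples `a` of constant terms: `|a l| ≤ X` for all `l` -/
noncomputable def Box (k X : ℕ) : Finset (Fin k → ℤ) := Fintype.piFinset (fun _ => Icc (-(X : ℤ)) X)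

/-- the Möbius function -/
noncomputable def mu (n : ℕ) : ℝ := ((ArithmeticFunction.moebius n : ℤ) : ℝ)

/-- the Liouville function, `0` at `0` -/
noncomputable def lambda (n : ℕ) : ℝ := if n = 0 then 0 else (-1) ^ n.primeFactorsList.length

/-- **The variance of the Möbius and Liouville functions at polynomial values.** Let `(h, ρ) = (μ, 6 / π²)` or `(λ, 1)`, `f_0` an integer polynomial of
degree `d ≥ 2` with positive leading coefficient, `f_1, …, f_k` arbitrary integer polynomials (`k ≥ 0`). For every `ε > 0` and all `U`, `C`, `D` there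
are `B` and `X₀` with the following property for all `X ≥ X₀`, all `m₀`, `M` with `X^(1/3) (log X)^B ≤ M^(d - 1)` and
`(m₀ + M)^(deg f_l) ≤ X (log X)^C` for all `l`, all `1 ≤ H ≤ (log X)^D` and all weights `ω`, `|ω(n)| ≤ 1`. The sum over all pairs `(a, m)`,
`a = (a_0, …, a_k)`, `|a_l| ≤ X`, `m₀ < m ≤ m₀ + M`, of the square of `∑_{m < n ≤ m + H} ω(n) ∏_l h(|f_l(n) + a_l|)` is `(2 ρ X)^(k+1) S`,
`S = ∑_m ∑_{m < n ≤ m + H} ω(n)²`, up to an error of at most `(2 X)^(k+1) (ε S + M H² / (log X)^U)`. (For `ω = 1`, `S = M H`, and with `U = D + 1` the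
error is `o((2 X)^(k+1) M H)`.) -/
theorem result : ∀ (h : ℕ → ℝ) (ρ : ℝ), (h = mu ∧ ρ = 6 / Real.pi ^ 2) ∨ (h = lambda ∧ ρ = 1) →
    ∀ (k : ℕ) (f : Fin (k + 1) → ℤ[X]), 2 ≤ (f 0).natDegree → 0 < (f 0).leadingCoeff →
    ∀ (ε : ℝ) (U C D : ℕ), 0 < ε → ∃ B X₀ : ℕ, ∀ X : ℕ, X₀ ≤ X → ∀ m₀ M H : ℕ, 1 ≤ H → (H : ℝ) ≤ Real.log X ^ D →
    (X : ℝ) ^ (1 / 3 : ℝ) * Real.log X ^ B ≤ (M : ℝ) ^ ((f 0).natDegree - 1) →
    (∀ l, ((m₀ : ℝ) + M) ^ (f l).natDegree ≤ X * Real.log X ^ C) → ∀ ω : ℕ → ℝ, (∀ n, |ω n| ≤ 1) →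
    |∑ a ∈ Box (k + 1) X, ∑ m ∈ Ioc m₀ (m₀ + M),
        (∑ n ∈ Ioc m (m + H), ω n * ∏ l, h ((f l).eval (n : ℤ) + a l).natAbs) ^ 2 -
      (2 * ρ * X) ^ (k + 1) * ∑ m ∈ Ioc m₀ (m₀ + M), ∑ n ∈ Ioc m (m + H), ω n ^ 2| ≤
      (2 * X : ℝ) ^ (k + 1) * (ε * (∑ m ∈ Ioc m₀ (m₀ + M), ∑ n ∈ Ioc m (m + H), ω n ^ 2) + M * (H : ℝ) ^ 2 / Real.log X ^ U) := by
  rintro h ρ (⟨rfl, rfl⟩ | ⟨rfl, rfl⟩) k f h1 h2 ε U C D hε
  · obtain ⟨B, X₀, h3⟩ := Run7.h285.L.var_mob f ⟨h1, h2⟩ ε U C D hε
    refine ⟨B, X₀, fun X hX m₀ M H hH hHD hM hW ω hω => ?_⟩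
    have h4 := h3 X hX m₀ M H hH hHD hM hW ω hω
    have e : 2 * (6 / Real.pi ^ 2) = 12 / Real.pi ^ 2 := by ring
    rw [e]
    exact h4
  · obtain ⟨B, X₀, h3⟩ := Run7.h285.L.var_lio f ⟨h1, h2⟩ ε U C D hε
    refine ⟨B, X₀, fun X hX m₀ M H hH hHD hM hW ω hω => ?_⟩
    have h4 := h3 X hX m₀ M H hH hHD hM hW ω hω
    rw [mul_one]
    exact h4

end Pool.Agent.Results.MP_0575cc_nt.VarianceAtPolynomials
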